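import Pool.Agent.H.MP_7f2dba_nt.D

namespace Pool.Agent.Results.MP_7f2dba_nt.Full
open Finset Pool.Agent.H.MP_7f2dba_nt

def S (m : ℤ) (n : ℕ) : ℚ :=
  ∑ k ∈ range n, (-1) ^ k * ((n - 1).choose k : ℚ) * ((2 * k).choose k : ℚ) / (m : ℚ) ^ k

def ValGe (x : ℚ) (e : ℤ) : Prop := x = 0 ∨ e ≤ padicValRat 3 x

theorem Seq (m : ℤ) (hm : m ≠ 0) (N : ℕ) : S m (N + 1) =
    ((∑ k ∈ range (N + 1), (N.choose k : ℤ) * (2 * k).choose k * (m - 4) ^ (N - k) : ℤ) : ℚ) /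
      ((m ^ N : ℤ) : ℚ) := by
  rw [← Pool.Agent.H.MP_7f2dba_nt.flip, S, Nat.add_sub_cancel]
  push_cast
  rw [sum_div]
  refine sum_congr rfl fun k hk => ?_
  have hk' : k ≤ N := by simpa [Nat.lt_succ_iff] using hk
  have hm' : (m : ℚ) ≠ 0 := by exact_mod_cast hm
  obtain ⟨l, rfl⟩ := Nat.exists_eq_add_of_le hk'
  rw [Nat.add_sub_cancel_left, pow_add]
  field_simp

theorem q1 (m : ℤ) (hm : m % 3 = 1) (n : ℕ) (hn : 0 < n) (e : ℕ) (he : e ≤ padicValNat 3 n)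
    (hem : (3 : ℤ) ^ e ∣ m - 1) : ValGe (S m n / n) ((e : ℤ) - 1) := by
  have : Fact (Nat.Prime 3) := ⟨Nat.prime_three⟩
  obtain ⟨N, rfl⟩ : ∃ N, n = N + 1 := ⟨n - 1, by omega⟩
  have hm0 : m ≠ 0 := by omega
  obtain ⟨t, ht⟩ : ∃ t, m = 3 * t + 1 := ⟨m / 3, by omega⟩
  set a := padicValNat 3 (N + 1) with ha
  have hd : 3 ^ a ∣ N + 1 := pow_padicValNat_dvd
  have h1 := diff1 a N t hd
  have h2 : (3 : ℤ) ^ (a + e) ∣ 3 * ∑ k ∈ range (N + 1), (N.choose k : ℤ) * (2 * k).choose k *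
      (-3) ^ (N - k) := by
    rcases Nat.eq_zero_or_pos a with h0 | h0
    · rw [show a + e = 0 by omega]; simp
    · obtain ⟨b, hb⟩ : ∃ b, a = b + 1 := ⟨a - 1, by omega⟩
      obtain ⟨c, hc⟩ := hd
      rw [hb, pow_succ'] at hc
      have hpos : 0 < 3 ^ b * c := by
        rcases Nat.eq_zero_or_pos (3 ^ b * c) with h | h
        · rw [mul_assoc, h] at hc; omega
        · exact h
      obtain ⟨D, hD⟩ : ∃ D, 3 ^ b * c = D + 1 := ⟨3 ^ b * c - 1, by omega⟩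
      have hN : N = 3 * D + 2 := by rw [mul_assoc, hD] at hc; omega
      have := Tdiv D b ⟨c, hD.symm⟩
      rw [← hN] at this
      refine (pow_dvd_pow 3 (show a + e ≤ 2 * b + 1 + 1 by omega)).trans ?_
      rw [pow_succ']; exact mul_dvd_mul_left 3 this
  have h3 : (3 : ℤ) ^ (a + e) ∣ 3 * ∑ k ∈ range (N + 1), (N.choose k : ℤ) * (2 * k).choose k *
      (m - 4) ^ (N - k) := by
    have h4 : (3 : ℤ) ^ (a + e) ∣ 3 * (3 ^ a * t) := by
      rw [pow_add, show 3 * (3 ^ a * t) = 3 ^ a * (m - 1) by rw [ht]; ring]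
      exact mul_dvd_mul_left _ hem
    have := dvd_add (h4.trans (mul_dvd_mul_left 3 h1)) h2
    rw [show m - 4 = 3 * t - 3 by rw [ht]; ring]
    exact dv this (by ring)
  have hv := valq _ (3 * (m ^ N * ((N + 1 : ℕ) : ℤ))) _ (by positivity) h3
  have hval : padicValInt 3 (3 * (m ^ N * ((N + 1 : ℕ) : ℤ))) = 1 + a := by
    rw [padicValInt.mul (by norm_num) (by positivity), padicValInt.mul (by positivity)
      (by positivity), valm m hm, padicValInt.of_nat, ← ha]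
    have : padicValInt 3 3 = 1 := padicValInt_self (p := 3)
    omega
  rw [hval] at hv
  rw [Seq m hm0, ValGe]
  have hm' : (m : ℚ) ≠ 0 := by exact_mod_cast hm0
  convert hv using 2
  · push_cast; field_simp
  · push_cast; ring
  · congr 1; push_cast; field_simp

theorem q2a (m : ℤ) (hm : m % 3 = 1) (hm1 : m ≠ 1) (a : ℕ) (ha : padicValInt 3 (m - 1) < a) :
    ValGe (S m (3 ^ a) / 3 ^ a - (-(((m : ℚ) - 1) / 3))) (padicValInt 3 (m - 1)) := by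
  have : Fact (Nat.Prime 3) := ⟨Nat.prime_three⟩
  have hm0 : m ≠ 0 := by omega
  obtain ⟨t, ht⟩ : ∃ t, m = 3 * t + 1 := ⟨m / 3, by omega⟩
  set s := padicValInt 3 (m - 1) with hs
  have hs1 : 1 ≤ s := by
    have := (padicValInt_dvd_iff (p := 3) 1 (m - 1)).1 ⟨t, by rw [ht]; push_cast; ring⟩
    omega
  have hsd : (3 : ℤ) ^ s ∣ m - 1 := by exact_mod_cast padicValInt_dvd (p := 3) (m - 1)
  obtain ⟨b, rfl⟩ : ∃ b, a = b + 2 := ⟨a - 2, by omega⟩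
  have hp : 0 < 3 ^ (b + 1) := by positivity
  obtain ⟨D, hD⟩ : ∃ D, 3 ^ (b + 1) = D + 1 := ⟨3 ^ (b + 1) - 1, by omega⟩
  have hE : 3 * D + 1 + 1 + 1 = 3 ^ (b + 2) := by rw [pow_succ, hD]; ring
  have h1 := diff2 (b + 2) (3 * D + 1) t (by rw [hE])
  have h2 := Tdiv D (b + 1) (by rw [hD])
  obtain ⟨y, hy⟩ := Zcong (3 * D + 1) b hE
  obtain ⟨x, hx⟩ := sub_dvd_pow_sub_pow m 1 (3 * D + 2)
  obtain ⟨t0, ht0⟩ := hsd
  rw [hy] at h1
  have h3 : (3 : ℤ) ^ (b + 2 + s) ∣ ∑ k ∈ range (3 * D + 2 + 1), ((3 * D + 2).choose k : ℤ) *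
      (2 * k).choose k * (m - 4) ^ (3 * D + 2 - k) + 3 ^ (b + 1) * (m - 1) * m ^ (3 * D + 2) := by
    have h4 : (3 : ℤ) ^ (b + 2 + s) ∣ 3 ^ (b + 2 + 1) * t :=
      ⟨t0, by linear_combination 3 ^ (b + 2) * ht0 - 3 ^ (b + 2) * ht⟩
    have h5 := (pow_dvd_pow (3 : ℤ) (show b + 2 + s ≤ 2 * (b + 1) + 1 by omega)).trans h2
    have h6 : (3 : ℤ) ^ (b + 2 + s) ∣ 3 ^ (b + 2 + 1) * t * ((3 * D + 2) * y + D + 1 + t * x) :=
      h4.mul_right _
    have := dvd_add (dvd_add (h4.trans h1) h5) h6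
    rw [show m - 4 = 3 * t - 3 by rw [ht]; ring]
    refine dv this ?_
    push_cast
    have ht' : m - 1 = 3 * t := by rw [ht]; ring
    rw [ht'] at hx ⊢
    linear_combination (3 ^ (b + 1) * (3 * t)) * hx
  have hv := valq _ (m ^ (3 * D + 2) * 3 ^ (b + 2)) _ (by positivity) h3
  have hval : padicValInt 3 (m ^ (3 * D + 2) * 3 ^ (b + 2)) = b + 2 := by
    rw [padicValInt.mul (by positivity) (by positivity), valm m hm]
    have := padicValInt.of_nat (p := 3) (n := 3 ^ (b + 2))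
    rw [padicValNat.prime_pow] at this
    push_cast at this
    omega
  rw [hval] at hv
  rw [← hE, Seq m hm0, ValGe]
  have hm' : (m : ℚ) ≠ 0 := by exact_mod_cast hm0
  convert hv using 2
  · push_cast; field_simp; ring
  · push_cast; ring
  · congr 1; push_cast; field_simp; ring

theorem q2b (a : ℕ) (ha : 2 ≤ a) :
    ValGe (S 1 (3 ^ a) - (-(3 : ℚ) ^ (2 * a - 1))) (2 * a) := by
  obtain ⟨b, rfl⟩ : ∃ b, a = b + 2 := ⟨a - 2, by omega⟩
  have hp : 0 < 3 ^ (b + 1) := by positivity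
  obtain ⟨D, hD⟩ : ∃ D, 3 ^ (b + 1) = D + 1 := ⟨3 ^ (b + 1) - 1, by omega⟩
  have hE : 3 * D + 2 + 1 = 3 ^ (b + 2) := by rw [pow_succ, hD]; ring
  have hv := valq _ 1 _ one_ne_zero (Tcong D b hD.symm)
  rw [← hE, Seq 1 one_ne_zero, ValGe, show 2 * (b + 2) - 1 = 2 * (b + 1) + 1 by omega]
  convert hv using 2
  · push_cast; norm_num
  · simp; ring
  · congr 1; push_cast; norm_num

theorem result :
    (∀ (m : ℤ) (n : ℕ), m % 3 = 1 → 0 < n →
      ValGe (S m n / n) ((if m = 1 then (padicValNat 3 n : ℤ)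
        else min (padicValNat 3 n : ℤ) (padicValInt 3 (m - 1) : ℤ)) - 1)) ∧
    (∀ (m : ℤ) (a : ℕ), m % 3 = 1 → m ≠ 1 → padicValInt 3 (m - 1) < a →
      ValGe (S m (3 ^ a) / 3 ^ a - (-(((m : ℚ) - 1) / 3))) (padicValInt 3 (m - 1))) ∧
    (∀ a : ℕ, 2 ≤ a → ValGe (S 1 (3 ^ a) - (-(3 : ℚ) ^ (2 * a - 1))) (2 * a)) := by
  have : Fact (Nat.Prime 3) := ⟨Nat.prime_three⟩
  refine ⟨fun m n hm hn => ?_, fun m a hm hm1 ha => q2a m hm hm1 a ha, q2b⟩
  split_ifs with h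
  · exact q1 m hm n hn _ le_rfl (by simp [h])
  · have := q1 m hm n hn (min (padicValNat 3 n) (padicValInt 3 (m - 1))) (min_le_left _ _)
      ((pow_dvd_pow 3 (min_le_right _ _)).trans
        (by exact_mod_cast padicValInt_dvd (p := 3) (m - 1)))
    simpa using this

end Pool.Agent.Results.MP_7f2dba_nt.Full
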